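import Pool.Agent.Lib.MP_b07a8a_nt.Mg.G001

/-! # The error term -/

set_option autoImplicit false

open Finset

namespace Pool.Agent.SievePar

/-- TASK A7d. PROOF. For `j < l₀` all `S p`, `p ∈ blk j`, are empty, so only `D = ∅` contributes and
`AA = 1`. For `j ≥ l₀`: `AA_le` with `c = 2 k`: `1 + 2 k * card ≤ (1 + 2 k) * 2 ^ 2 ^ (j + 1)
≤ 2 ^ 2 ^ j * 2 ^ 2 ^ (j + 1) ≤ 2 ^ 2 ^ (j + 2)`. So `AA S (blk j) b ≤ 2 ^ (2 ^ (j + 2) * b)`; product over
`j` and `sum_levels`. -/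
theorem prod_AA_le {k l₀ : ℕ} (hk : 2 * k + 1 ≤ 2 ^ 2 ^ l₀) {S : ℕ → Finset ℕ}
    (hSk : ∀ p, (S p).card ≤ k) (hS0 : ∀ p, p ≤ 2 ^ 2 ^ l₀ → S p = ∅) (m R : ℕ) :
    ∏ j : Fin R, AA S (blk j) (2 * (m + (R - 1 - j)) + 1) ≤ 2 ^ (2 ^ R * (8 * m + 12)) := by
  have hone : ∀ (j b : ℕ), AA S (blk j) b ≤ 2 ^ (2 ^ (j + 2) * b) := by
    intro j b
    rcases Nat.lt_or_ge j l₀ with hj | hj
    · have h1 : AA S (blk j) b ≤ (1 + (0 : ℝ) * (blk j).card) ^ b := by
        refine AA_le le_rfl ?_ b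
        intro p hp
        obtain ⟨_, h2, _⟩ := mem_blk.1 hp
        have h3 : S p = ∅ := by
          apply hS0
          refine h2.trans ?_
          refine Nat.pow_le_pow_right (by norm_num) (Nat.pow_le_pow_right (by norm_num) hj)
        rw [h3]
        simp
      refine h1.trans ?_
      rw [zero_mul, add_zero, one_pow]
      exact one_le_pow₀ (by norm_num)
    · have h1 : AA S (blk j) b ≤ (1 + (2 * (k : ℝ)) * (blk j).card) ^ b := by
        refine AA_le (by positivity) ?_ b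
        intro p _
        have h2 : ((S p).card : ℝ) ≤ k := by exact_mod_cast hSk p
        linarith
      have hcard : (blk j).card ≤ 2 ^ 2 ^ (j + 1) := card_blk_le j
      have hk' : 2 * k + 1 ≤ 2 ^ 2 ^ (j + 1) := by
        refine hk.trans ?_
        exact Nat.pow_le_pow_right (by norm_num) (Nat.pow_le_pow_right (by norm_num) (by omega))
      have h2 : 1 + (2 * k) * (blk j).card ≤ 2 ^ 2 ^ (j + 2) := by
        have h3 : 1 + (2 * k) * (blk j).card ≤ (2 * k + 1) * 2 ^ 2 ^ (j + 1) := by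
          have h4 : 1 ≤ 2 ^ 2 ^ (j + 1) := Nat.one_le_two_pow
          have h5 : (2 * k) * (blk j).card ≤ (2 * k) * 2 ^ 2 ^ (j + 1) :=
            Nat.mul_le_mul_left _ hcard
          rw [add_mul, one_mul]
          omega
        have h4 : (2 * k + 1) * 2 ^ 2 ^ (j + 1) ≤ 2 ^ 2 ^ (j + 1) * 2 ^ 2 ^ (j + 1) :=
          Nat.mul_le_mul_right _ hk'
        have h5 : 2 ^ 2 ^ (j + 1) * 2 ^ 2 ^ (j + 1) = 2 ^ 2 ^ (j + 2) := by
          rw [← pow_add]
          congr 1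
          ring
        rw [← h5]
        exact h3.trans h4
      have h3 : (1 + (2 * (k : ℝ)) * (blk j).card) ≤ 2 ^ 2 ^ (j + 2) := by exact_mod_cast h2
      rw [pow_mul]
      exact h1.trans (pow_le_pow_left₀ (by positivity) h3 b)
  have hnn : ∀ (j b : ℕ), 0 ≤ AA S (blk j) b := by
    intro j b
    unfold AA
    exact Finset.sum_nonneg fun D _ => Finset.prod_nonneg fun p _ => by positivity
  calc ∏ j : Fin R, AA S (blk j) (2 * (m + (R - 1 - j)) + 1)
      ≤ ∏ j : Fin R, (2 : ℝ) ^ (2 ^ ((j : ℕ) + 2) * (2 * (m + (R - 1 - j)) + 1)) :=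
        Finset.prod_le_prod (fun j _ => hnn _ _) fun j _ => hone _ _
    _ = 2 ^ (∑ j : Fin R, 2 ^ ((j : ℕ) + 2) * (2 * (m + (R - 1 - j)) + 1)) :=
        Finset.prod_pow_eq_pow_sum _ _ _
    _ = 2 ^ (∑ j ∈ range R, 2 ^ (j + 2) * (2 * (m + (R - 1 - j)) + 1)) := by
        rw [Fin.sum_univ_eq_sum_range (fun j => 2 ^ (j + 2) * (2 * (m + (R - 1 - j)) + 1)) R]
    _ ≤ 2 ^ (2 ^ R * (8 * m + 12)) := pow_le_pow_right₀ (by norm_num) (sum_levels m R)

end Pool.Agent.SievePar
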