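import Pool.Agent.Lib.MP_b07a8a_nt.Mg.G001
import Pool.Agent.Lib.MP_b07a8a_nt.Mg.G002

/-! # Polynomial values with a bounded number of prime factors -/

set_option autoImplicit false

open Finset Polynomial

namespace Pool.Agent.SievePar

/-- THE SIEVE THEOREM (TASK A8g). PROOF. `exists_reduced`, `reduced_count`; `c = |g₀| * Q`,
`Ω (g₀ * v) = Ω g₀ + Ω v` (`ArithmeticFunction.cardFactors_mul`, `Int.natAbs_mul`). -/
theorem poly_almost_prime (G : ℤ[X]) (hG : G.coeff 0 ≠ 0) :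
    ∃ c K u R₀ : ℕ, 1 ≤ c ∧
      ∀ R : ℕ, R₀ ≤ R → 2 ^ 2 ^ R ≤ (gd G c K (2 ^ (2 ^ R * u))).card := by
  obtain ⟨l₀, Q, F, hQ, hF0, hdeg, hev, hsm⟩ := exists_reduced G hG
  obtain ⟨K, u, R₀, hK⟩ := reduced_count F hF0 hdeg hsm
  have hg : 1 ≤ (G.coeff 0).natAbs := Int.natAbs_pos.mpr hG
  refine ⟨(G.coeff 0).natAbs * Q, ArithmeticFunction.cardFactors (G.coeff 0).natAbs + K, u, R₀,
    Nat.mul_pos hg hQ, fun R hR => (hK R hR).trans (Finset.card_le_card ?_)⟩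
  intro s hs
  rw [mem_gd] at hs ⊢
  obtain ⟨h1, h2, h3⟩ := hs
  rw [one_mul] at h2 h3
  have h4 : G.eval ((((G.coeff 0).natAbs * Q * s : ℕ)) : ℤ) = G.coeff 0 * F.eval (s : ℤ) := by
    rw [← hev s, Nat.cast_mul ((G.coeff 0).natAbs * Q) s]
  rw [h4]
  refine ⟨h1, mul_ne_zero hG h2, ?_⟩
  rw [Int.natAbs_mul, ArithmeticFunction.cardFactors_mul (Int.natAbs_ne_zero.mpr hG)
    (Int.natAbs_ne_zero.mpr h2)]
  exact Nat.add_le_add_left h3 _

end Pool.Agent.SievePar
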